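import Mathlib
import Pool.Agent.Helper17.ER.Defs
import Pool.Agent.Helper17.ER.Final

/-! Exact set recovery for Erdős–Rényi subgraph pairs: the entropy converse. -/

open Filter Topology

namespace Pool.Agent.Results.MP_1dfc85_pr.ExactRecoveryConverse

open Pool.Agent.Helper17.ER

/-- If `(m/2) h(p) - log n → -∞` with `1 ≤ m ≤ n - 1` and `0 < p < 1`, then every
(randomised) estimator has success probability at most `99/100` for all large `n`; in
particular its success probability does not tend to `1`. -/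
theorem result (m : ℕ → ℕ) (p : ℕ → ℝ)
    (h : ∀ᶠ n in atTop, (1 ≤ m n ∧ m n < n) ∧ (0 < p n ∧ p n < 1))
    (hω : Tendsto (fun n : ℕ => (m n : ℝ) / 2 * Real.binEntropy (p n) - Real.log n) atTop atBot)
    (A : ∀ n, Estimator n (m n)) :
    (∀ᶠ n in atTop, successProb n (m n) (p n) (A n) ≤ 99 / 100) ∧
      ¬ Tendsto (fun n => successProb n (m n) (p n) (A n)) atTop (𝓝 1) := by
  obtain ⟨K, hK⟩ := uniform_bound
  have h1 : ∀ᶠ n in atTop, successProb n (m n) (p n) (A n) ≤ 99 / 100 := by
    filter_upwards [h, hω.eventually_le_atBot (-K)] with n hn hn2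
    exact hK n (m n) (p n) (A n) hn.1.1 hn.1.2 hn.2.1 hn.2.2 (by linarith)
  refine ⟨h1, fun hT => ?_⟩
  have h2 := le_of_tendsto hT h1
  norm_num at h2

end Pool.Agent.Results.MP_1dfc85_pr.ExactRecoveryConverse
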